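import Mathlib
import Pool.Agent.Helper329.Sub.Defs
import Pool.Agent.Helper329.Sub.Tools
import Pool.Agent.Helper329.Sub.Chain
import Pool.Agent.Helper329.Sub.Num2

/-!
The exact value of `M(n,k)`, the largest size of a unit-free set of vertices of weight exactly `k`
of the `n`-cube:

* `M(n,1) = 0`;
* `M(n,k) = m * C(n - m, k - 1)` with `m = ⌊(n + 1) / k⌋` for `2 ≤ k ≤ n`; this is the maximum of
  `C(n₁,k₁) C(n₂,k₂)` over `n₁ + n₂ = n`, `k₁ + k₂ = k`, `1 ≤ k₁ ≤ n₁`, `1 ≤ k₂ ≤ n₂`.

Sketch. A unit-free set is orthogonal to a vector `x` with no zero coordinate; let `P`, `N` be the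
sets of positive and negative coordinates. For orderings of `P` and `N`, the sets
`{a_1, …, a_j} ∪ {b_1, …, b_{k-j}}` have strictly increasing `x`-sums, so at most one of them
has sum zero. Averaging over the orderings gives the bound `max_j C(p,j) C(q,k-j)`, `1 ≤ j ≤ k-1`.
The numerical maximum is determined by a majorization argument.
-/

set_option autoImplicit false

namespace Pool.Agent.Results.MP_7e34bc_co.ExactWeight

open Pool.Agent.Helper329.Sub

/-- upper bound -/
lemma le_of_mem_sizes {n k G c : ℕ} (hk : 1 ≤ k)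
    (hG : ∀ p q j w : ℕ, p + q = n → j + w = k → 1 ≤ j → j ≤ p → 1 ≤ w → w ≤ q →
      p.choose j * q.choose w ≤ G) (hc : c ∈ sizes n k) : c ≤ G := by
  obtain ⟨S, hS, hU, rfl⟩ := hc
  obtain ⟨x, hx, hxS⟩ := exists_orth hU
  obtain ⟨F, hSF, hcard⟩ := exists_family (fun v hv => (hS v hv).1)
  rw [hcard]
  refine card_le_of_zero_sum x hx k hk F ?_ G ?_
  · intro A hA
    have hmem : ind A ∈ S := by
      rw [hSF]; exact ⟨A, Finset.mem_coe.2 hA, rfl⟩
    refine ⟨?_, ?_⟩
    · rw [← weight_ind]; exact (hS _ hmem).2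
    · rw [← sum_ind_mul]; exact hxS _ hmem
  · intro p q j w hpq
    rw [Fintype.card_fin] at hpq
    exact hG p q j w hpq

lemma isGreatest_one {n : ℕ} : IsGreatest (sizes n 1) 0 := by
  constructor
  · refine ⟨∅, by simp, ?_, by simp⟩
    intro i hi
    rw [Submodule.span_empty, Submodule.mem_bot] at hi
    have := congrFun hi i
    simp at this
  · intro c hc
    apply le_of_mem_sizes (le_refl 1) _ hc
    intro p q j w _ hjw hj _ hw _
    omega

lemma isGreatest_two {n k : ℕ} (hk : 2 ≤ k) (hkn : k ≤ n) : IsGreatest (sizes n k) (F1 k n) := by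
  constructor
  · obtain ⟨h1, h2, h3, h4, h5⟩ := m_facts hk hkn
    have h := product_mem_sizes (n := n) (n₁ := (n + 1) / k) (n₂ := n - (n + 1) / k) (k₁ := 1)
      (k₂ := k - 1) (by omega) (le_refl 1) (by omega)
    rw [Nat.choose_one_right, show 1 + (k - 1) = k by omega] at h
    exact h
  · intro c hc
    apply le_of_mem_sizes (by omega) _ hc
    intro p q j w hpq hjw hj hjp hw hwq
    rw [← hpq, ← hjw]
    exact choose_mul_choose_le hj hw hjp hwq

lemma productSizes_greatest {n k : ℕ} (hk : 2 ≤ k) (hkn : k ≤ n) :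
    IsGreatest (productSizes n k) (F1 k n) := by
  constructor
  · obtain ⟨h1, h2, h3, h4, h5⟩ := m_facts hk hkn
    refine ⟨(n + 1) / k, n - (n + 1) / k, 1, k - 1, by omega, by omega, le_refl 1, h1, by omega, h4, ?_⟩
    rw [Nat.choose_one_right]
    rfl
  · rintro c ⟨p, q, j, w, hpq, hjw, hj, hjp, hw, hwq, rfl⟩
    rw [← hpq, ← hjw]
    exact choose_mul_choose_le hj hw hjp hwq

/-- **Main result.** For all `1 ≤ k ≤ n`: `M(n,k)` is the size of a unit-free set of weight-`k`
vertices and no such set is larger; `M(n,1) = 0`; for `k ≥ 2`,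
`M(n,k) = m * C(n - m, k - 1)` with `m = ⌊(n + 1) / k⌋`, and this is also the largest of the numbers
`C(n₁,k₁) C(n₂,k₂)` with `n₁ + n₂ = n`, `k₁ + k₂ = k`, `1 ≤ k₁ ≤ n₁`, `1 ≤ k₂ ≤ n₂`. -/
theorem result (n k : ℕ) (hk : 1 ≤ k) (hkn : k ≤ n) :
    IsGreatest (sizes n k) (M n k) ∧
    (k = 1 → M n k = 0) ∧
    (2 ≤ k → M n k = ((n + 1) / k) * (n - (n + 1) / k).choose (k - 1)) ∧
    (2 ≤ k → IsGreatest (productSizes n k) (M n k)) := by
  rcases Nat.eq_or_lt_of_le hk with h | h
  · subst h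
    have h0 : M n 1 = 0 := isGreatest_one.csSup_eq
    rw [h0]
    exact ⟨isGreatest_one, fun _ => rfl, fun h => absurd h (by norm_num),
      fun h => absurd h (by norm_num)⟩
  · have h2 : 2 ≤ k := h
    have h0 : M n k = F1 k n := (isGreatest_two h2 hkn).csSup_eq
    rw [h0]
    exact ⟨isGreatest_two h2 hkn, fun h => by omega, fun _ => rfl,
      fun _ => productSizes_greatest h2 hkn⟩

end Pool.Agent.Results.MP_7e34bc_co.ExactWeight
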